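import Pool.Agent.HAR.Stmts

/-!
# Squad HAR, rows PRI and FAM
-/

namespace Pool.Agent.HAR.H49

open Finset Filter Topology Pool.Agent.HAR

noncomputable section

theorem desc_le (u g : ℕ) : ∀ t : ℕ,
    (u - g).descFactorial t * u ^ t ≤ u.descFactorial t * (u - g) ^ t := by
  intro t
  induction t with
  | zero => simp
  | succ t ih =>
    rw [Nat.descFactorial_succ, Nat.descFactorial_succ, pow_succ, pow_succ]
    have h1 : (u - g - t) * u ≤ (u - t) * (u - g) := by
      rcases le_or_gt (u - g) t with h | h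
      · have : u - g - t = 0 := by omega
        rw [this]
        simp
      · obtain ⟨a, ha⟩ : ∃ a, u - g - t = a := ⟨_, rfl⟩
        have e1 : u = a + g + t := by omega
        have e2 : u - t = a + g := by omega
        have e3 : u - g = a + t := by omega
        rw [ha, e2, e3, e1]
        nlinarith [Nat.zero_le (g * t)]
    calc (u - g - t) * (u - g).descFactorial t * (u ^ t * u)
        = ((u - g).descFactorial t * u ^ t) * ((u - g - t) * u) := by ring
      _ ≤ (u.descFactorial t * (u - g) ^ t) * ((u - t) * (u - g)) := Nat.mul_le_mul ih h1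
      _ = (u - t) * u.descFactorial t * ((u - g) ^ t * (u - g)) := by ring

theorem choose_le (u g t : ℕ) (hu : 0 < u) (hg : g ≤ u) :
    ((u - g).choose t : ℝ) ≤ Real.exp (-((g : ℝ) * t / u)) * u.choose t := by
  have h0 : (u - g).choose t * u ^ t ≤ u.choose t * (u - g) ^ t := by
    have h := desc_le u g t
    rw [Nat.descFactorial_eq_factorial_mul_choose, Nat.descFactorial_eq_factorial_mul_choose,
      mul_assoc, mul_assoc] at h
    exact Nat.le_of_mul_le_mul_left h (Nat.factorial_pos t)
  have h1 : ((u - g).choose t : ℝ) * (u : ℝ) ^ t ≤ u.choose t * ((u : ℝ) - g) ^ t := by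
    have : (((u - g).choose t * u ^ t : ℕ) : ℝ) ≤ ((u.choose t * (u - g) ^ t : ℕ) : ℝ) := by
      exact_mod_cast h0
    push_cast [Nat.cast_sub hg] at this
    exact this
  have hu' : (0 : ℝ) < u := by exact_mod_cast hu
  have hug : (0 : ℝ) ≤ (u : ℝ) - g := by
    have : (g : ℝ) ≤ u := by exact_mod_cast hg
    linarith
  have h2 : ((u : ℝ) - g) ^ t ≤ Real.exp (-((g : ℝ) * t / u)) * (u : ℝ) ^ t := by
    have e1 : Real.exp (-((g : ℝ) * t / u)) = Real.exp (-((g : ℝ) / u)) ^ t := by
      rw [← Real.exp_nat_mul]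
      congr 1
      ring
    rw [e1, ← mul_pow]
    apply pow_le_pow_left₀ hug
    have h3 := Real.one_sub_le_exp_neg ((g : ℝ) / u)
    have h4 : (u : ℝ) - g = (1 - (g : ℝ) / u) * u := by
      field_simp
    rw [h4]
    exact mul_le_mul_of_nonneg_right h3 hu'.le
  have h5 : ((u - g).choose t : ℝ) * (u : ℝ) ^ t ≤
      (Real.exp (-((g : ℝ) * t / u)) * u.choose t) * (u : ℝ) ^ t := by
    calc ((u - g).choose t : ℝ) * (u : ℝ) ^ t ≤ u.choose t * ((u : ℝ) - g) ^ t := h1
      _ ≤ u.choose t * (Real.exp (-((g : ℝ) * t / u)) * (u : ℝ) ^ t) := by gcongr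
      _ = _ := by ring
  exact le_of_mul_le_mul_right h5 (by positivity)

theorem pri : PriStmt := by
  classical
  intro n u g t K G U U' hU hu hg hUU hbad hK
  have e1 : Nat.card {S : Finset (Fin n) // S ⊆ U ∧ S.card = t ∧ ¬ Uq G S} =
      ((powersetCard t U).filter fun S => ¬ Uq G S).card := by
    apply Nat.subtype_card
    intro S
    simp only [mem_filter, mem_powersetCard, and_assoc]
  have e2 : Nat.card {S : Finset (Fin n) // S ⊆ U ∧ S.card = t ∧ Uq G S ∧ ∀ i, ¬ S ⊆ U' i} =
      ((powersetCard t U).filter fun S => Uq G S ∧ ∀ i, ¬ S ⊆ U' i).card := by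
    apply Nat.subtype_card
    intro S
    simp only [mem_filter, mem_powersetCard, and_assoc]
  rw [e1] at hbad
  rw [e2]
  have hcov : powersetCard t U ⊆
      (((powersetCard t U).filter fun S => Uq G S ∧ ∀ i, ¬ S ⊆ U' i) ∪
        ((powersetCard t U).filter fun S => ¬ Uq G S)) ∪
        (univ : Finset (Fin K)).biUnion fun i => powersetCard t (U ∩ U' i) := by
    intro S hS
    have hS' := mem_powersetCard.1 hS
    by_cases h1 : Uq G S
    · by_cases h2 : ∀ i, ¬ S ⊆ U' i
      · exact mem_union_left _ (mem_union_left _ (mem_filter.2 ⟨hS, h1, h2⟩))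
      · push Not at h2
        obtain ⟨i, hi⟩ := h2
        refine mem_union_right _ (mem_biUnion.2 ⟨i, mem_univ _, mem_powersetCard.2 ⟨?_, hS'.2⟩⟩)
        exact subset_inter hS'.1 hi
    · exact mem_union_left _ (mem_union_right _ (mem_filter.2 ⟨hS, h1⟩))
  have hc1 := card_le_card hcov
  have hc2 : ((univ : Finset (Fin K)).biUnion fun i => powersetCard t (U ∩ U' i)).card ≤
      K * (u - g).choose t := by
    refine card_biUnion_le.trans ?_
    calc ∑ i : Fin K, (powersetCard t (U ∩ U' i)).card ≤ ∑ _i : Fin K, (u - g).choose t := by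
          apply sum_le_sum
          intro i _
          rw [card_powersetCard]
          apply Nat.choose_le_choose
          have := hUU i
          omega
      _ = K * (u - g).choose t := by simp
  rw [card_powersetCard, hU] at hc1
  have hc3 := hc1.trans ((card_union_le _ _).trans
    (Nat.add_le_add (card_union_le _ _) hc2))
  have hc4 : (u.choose t : ℝ) ≤
      (((powersetCard t U).filter fun S => Uq G S ∧ ∀ i, ¬ S ⊆ U' i).card : ℝ) +
      (((powersetCard t U).filter fun S => ¬ Uq G S).card : ℝ) + K * (u - g).choose t := by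
    exact_mod_cast hc3
  have hc5 := choose_le u g t hu hg
  have hc6 : (K : ℝ) * (u - g).choose t ≤ (u.choose t : ℝ) / 4 := by
    calc (K : ℝ) * (u - g).choose t ≤ K * (Real.exp (-((g : ℝ) * t / u)) * u.choose t) := by
          gcongr
      _ = (4 * K * Real.exp (-((g : ℝ) * t / u))) * ((u.choose t : ℝ) / 4) := by ring
      _ ≤ 1 * ((u.choose t : ℝ) / 4) := by
          apply mul_le_mul_of_nonneg_right hK
          positivity
      _ = (u.choose t : ℝ) / 4 := one_mul _
  linarith

theorem fam (hfrs : FrsStmt) (hgdu : GduStmt) : FamStmt := by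
  classical
  intro c hc
  have hexp : ∀ᶠ n : ℕ in atTop, Real.exp (-(c * n)) ≤ 1 / 2000 := by
    have h1 : Tendsto (fun n : ℕ => Real.exp (-(c * n))) atTop (𝓝 0) := by
      apply Real.tendsto_exp_neg_atTop_nhds_zero.comp
      exact Tendsto.const_mul_atTop hc tendsto_natCast_atTop_atTop
    exact h1.eventually (eventually_le_nhds (by norm_num))
  have hnexp : ∀ᶠ n : ℕ in atTop, 4 * (n : ℝ) * Real.exp (-(c * n)) ≤ 1 / 400 := by
    have h1 : Tendsto (fun x : ℝ => x ^ 1 * Real.exp (-x)) atTop (𝓝 0) :=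
      Real.tendsto_pow_mul_exp_neg_atTop_nhds_zero 1
    have h2 : Tendsto (fun n : ℕ => c * (n : ℝ)) atTop atTop :=
      Tendsto.const_mul_atTop hc tendsto_natCast_atTop_atTop
    have h3 := (h1.comp h2).const_mul (4 / c)
    rw [mul_zero] at h3
    filter_upwards [h3.eventually (eventually_le_nhds (show (0 : ℝ) < 1 / 400 by norm_num))] with n hn
    refine le_trans (le_of_eq ?_) hn
    simp only [Function.comp_apply, pow_one]
    field_simp
  filter_upwards [hfrs, hexp, hnexp, eventually_ge_atTop 24] with n hf he hne hn24 G H hTy hiso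
  have hTy2 : Ty n (1 / 2000) G := by
    intro i hi1 hi2
    refine (hTy i hi1 hi2).trans ?_
    gcongr
  have hfr := hf G H hTy2 hiso
  have hgd := hgdu n _ G hTy (Real.exp_nonneg _)
  set s := 2 * kk n with hs
  have hkk : n ≤ 12 * kk n := by unfold kk; omega
  have hkk2 : 12 * kk n ≤ n + 11 := by unfold kk; omega
  have hsn : s ≤ n := by omega
  have huu : uu n = n - s := rfl
  have hch : n.choose (uu n) = n.choose s := by rw [huu]; exact Nat.choose_symm hsn
  rw [hch] at hgd
  have ef : Nat.card {S : Finset (Fin n) // S.card = s ∧ Uq G S ∧ ¬ Em G H S} =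
      ((univ : Finset (Finset (Fin n))).filter
        fun S => S.card = s ∧ Uq G S ∧ ¬ Em G H S).card := by
    apply Nat.subtype_card
    intro S
    simp
  let Bd : Finset (Fin n) → Prop := fun U => U.card = uu n ∧ ∃ t, tt n ≤ t ∧ t < uu n ∧
      ((uu n).choose t : ℝ) < 4 * Nat.card {S : Finset (Fin n) // S ⊆ U ∧ S.card = t ∧ ¬ Uq G S}
  have eb : Nat.card {U : Finset (Fin n) // Bd U} =
      ((univ : Finset (Finset (Fin n))).filter Bd).card := by
    apply Nat.subtype_card
    intro S
    simp
  change (Nat.card {U : Finset (Fin n) // Bd U} : ℝ) ≤ _ at hgd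
  rw [eb] at hgd
  rw [ef] at hfr
  set A := (univ : Finset (Finset (Fin n))).filter fun S => S.card = s ∧ Uq G S ∧ ¬ Em G H S
    with hA
  set F1 := A.filter fun S => ¬ Bd (univ \ S) with hF1
  have hcardF1 : (n.choose s : ℝ) / 400 ≤ F1.card := by
    have h1 : A ⊆ F1 ∪ ((univ : Finset (Finset (Fin n))).filter Bd).image fun U => univ \ U := by
      intro S hS
      by_cases hb : Bd (univ \ S)
      · refine mem_union_right _ (mem_image.2 ⟨univ \ S, mem_filter.2 ⟨mem_univ _, hb⟩, ?_⟩)
        exact Finset.sdiff_sdiff_eq_self (subset_univ S)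
      · exact mem_union_left _ (mem_filter.2 ⟨hS, hb⟩)
    have h2 := (card_le_card h1).trans ((card_union_le _ _).trans
      (Nat.add_le_add_left card_image_le _))
    have h3 : (A.card : ℝ) ≤ F1.card + ((univ : Finset (Finset (Fin n))).filter Bd).card := by
      exact_mod_cast h2
    have h4 : 4 * (n : ℝ) * Real.exp (-(c * n)) * n.choose s ≤ 1 / 400 * n.choose s := by
      gcongr
    linarith
  have hn0 : (0 : ℝ) < n := by
    have : 0 < n := by omega
    exact_mod_cast this
  -- double counting
  have hdc : ∑ v : Fin n, ((F1.filter fun S => v ∈ S).card : ℝ) = s * F1.card := by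
    have h1 : ∀ v : Fin n, ((F1.filter fun S => v ∈ S).card : ℝ) =
        ∑ S ∈ F1, if v ∈ S then (1 : ℝ) else 0 := by
      intro v
      rw [card_filter]
      push_cast
      rfl
    simp_rw [h1]
    rw [sum_comm]
    have h2 : ∀ S ∈ F1, (∑ v : Fin n, if v ∈ S then (1 : ℝ) else 0) = s := by
      intro S hS
      have h3 : S.card = s := (mem_filter.1 (mem_filter.1 hS).1).2.1
      rw [← sum_filter]
      simp [h3]
    rw [sum_congr rfl h2]
    simp [mul_comm]
  obtain ⟨v0, -, hv0⟩ : ∃ v ∈ (univ : Finset (Fin n)),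
      (s : ℝ) * F1.card / n ≤ ((F1.filter fun S => v ∈ S).card : ℝ) := by
    apply exists_le_of_sum_le
    · exact ⟨⟨0, by omega⟩, mem_univ _⟩
    · rw [hdc]
      simp only [sum_const, card_univ, Fintype.card_fin, nsmul_eq_mul]
      apply le_of_eq
      field_simp
  refine ⟨v0, (F1.filter fun S => v0 ∈ S).image fun S => univ \ S, ?_, ?_⟩
  · have hinj : Set.InjOn (fun S : Finset (Fin n) => univ \ S)
        ((F1.filter fun S => v0 ∈ S : Finset (Finset (Fin n))) : Set (Finset (Fin n))) := by
      intro S _ S' _ h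
      have h' : univ \ (univ \ S) = univ \ (univ \ S') := by
        have h0 : univ \ S = univ \ S' := h
        rw [h0]
      rwa [Finset.sdiff_sdiff_eq_self (subset_univ S), Finset.sdiff_sdiff_eq_self (subset_univ S')] at h'
    rw [card_image_of_injOn hinj]
    have h1 : (n : ℝ) / 6 ≤ s := by
      have : (n : ℝ) ≤ 12 * kk n := by exact_mod_cast hkk
      have h2 : (s : ℝ) = 2 * kk n := by rw [hs]; push_cast; ring
      rw [h2]
      linarith
    have h3 : (F1.card : ℝ) / 6 ≤ (s : ℝ) * F1.card / n := by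
      rw [le_div_iff₀ hn0]
      calc (F1.card : ℝ) / 6 * n = (n : ℝ) / 6 * F1.card := by ring
        _ ≤ s * F1.card := by gcongr
    linarith
  · intro U hU
    obtain ⟨S, hS, rfl⟩ := mem_image.1 hU
    obtain ⟨hSF, hv⟩ := mem_filter.1 hS
    obtain ⟨hSA, hbd⟩ := mem_filter.1 hSF
    obtain ⟨-, hSc, hSu, hSe⟩ := mem_filter.1 hSA
    have hcard : (univ \ S : Finset (Fin n)).card = uu n := by
      rw [card_sdiff_of_subset (subset_univ S), hSc, card_univ, Fintype.card_fin]
      rfl
    refine ⟨hcard, ?_, ?_, ?_, ?_⟩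
    · simp [hv]
    · rw [Finset.sdiff_sdiff_eq_self (subset_univ S)]
      exact hSu
    · rw [Finset.sdiff_sdiff_eq_self (subset_univ S)]
      exact hSe
    · intro t ht1 ht2
      by_contra hcon
      push Not at hcon
      exact hbd ⟨hcard, t, ht1, ht2, hcon⟩

end

end Pool.Agent.HAR.H49
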